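import Mathlib
import Pool.Agent.U496.CM.Lam

/-!
# Machines with counters make a positive proportion of errors on the Liouville function

If all sign patterns occur in `λ` (Chowla), then no rule with a bounded memory predicts `λ`. Here the predictor is a machine
with finitely many states and `k` counters whose values are unbounded; it works in real time (one step for each symbol).
Such machines generate, for example, the characteristic sequences of the squares or of the powers of `2`, and many other
sequences which are not periodic.

Proof. (1) A counter which is large stays positive for a long time, so that on this stretch the machine has one counter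
less. If all counters are small at many times then the run repeats a configuration, and it is periodic. By induction on
`k` the autonomous runs are locally periodic, with a bounded period, outside of a set of small density, on windows whose
length may be an arbitrary function of the period. This is uniform in the initial configuration, so that it can be used
between the errors. (2) A repetition of `λ` with the period `ρ` makes `λ` constant on an interval at `n / ρ`, and by the
theorem of Matomaki and Radziwill (starting library `TH823.MRS`) this is rare.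
-/

set_option autoImplicit false

namespace Pool.Agent.Results.MP_52aa73_nt.CounterMachineErrors

open Pool.Agent.U496.CM (CounterMachine errors wrong)

/-- the Liouville function `λ(n) = (-1)^Ω(n)` -/
def lam (n : ℕ) : ℤ := (-1) ^ ArithmeticFunction.cardFactors n

open Classical in
/-- **Machines with counters and sign patterns.** Let `M` be a real-time machine with finitely many states and `k` counters.
For a sequence `a` of integers, an initial configuration `x` and `N` let `E = errors M a x N` be the number of the wrong
predictions of `a 1, …, a N`.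

(1) For every function `H` and every `r ≥ 1` there are a finite set `A` of positive integers and `K` such that for all `a`,
`x`, `N` the number `R` of the `n < N` such that for no `P ∈ A` there is a `ρ` with `1 ≤ ρ ≤ P` and
`a (n + i + ρ + 1) = a (n + i + 1)` for all `i < H P` satisfies `r R ≤ N + K (E + 1)`.
(2) There is `K` such that `N ≤ K (E + G + 1)` for all `a`, all `φ`, all `x` and all `N`, where `G` is the number of the
`n`, `1 ≤ n ≤ N`, with `φ (a n) ≠ λ(n)`.
(3) There are `c > 0` and `N₀` such that for all `N ≥ N₀` and all `x` the machine makes at least `c N` errors on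
`λ(1), …, λ(N)`. -/
theorem result {Q : Type} [Finite Q] {k : ℕ} (M : CounterMachine Q k) :
    (∀ (H : ℕ → ℕ) (r : ℕ), 1 ≤ r → ∃ (A : Finset ℕ) (K : ℕ), (∀ P ∈ A, 1 ≤ P) ∧
      ∀ (a : ℕ → ℤ) (x : Q × (Fin k → ℕ)) (N : ℕ),
        r * ((Finset.range N).filter fun n => ∀ P ∈ A, ¬ ∃ ρ, 1 ≤ ρ ∧ ρ ≤ P ∧
          ∀ i < H P, a (n + i + ρ + 1) = a (n + i + 1)).card ≤ N + K * (errors M a x N + 1)) ∧
    (∃ K : ℝ, ∀ (a : ℕ → ℤ) (φ : ℤ → ℤ) (x : Q × (Fin k → ℕ)) (N : ℕ),
      (N : ℝ) ≤ K * (errors M a x N + wrong lam a φ N + 1)) ∧
    (∃ c : ℝ, 0 < c ∧ ∃ N₀ : ℕ, ∀ N : ℕ, N₀ ≤ N → ∀ x : Q × (Fin k → ℕ),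
      c * N ≤ errors M lam x N) := by
  have part2 : ∃ K : ℝ, ∀ (a : ℕ → ℤ) (φ : ℤ → ℤ) (x : Q × (Fin k → ℕ)) (N : ℕ),
      (N : ℝ) ≤ K * (errors M a x N + wrong lam a φ N + 1) := Pool.Agent.U496.CM.liouville M
  refine ⟨fun H r hr => ?_, part2, ?_⟩
  · obtain ⟨A, K, hA, hK⟩ := Pool.Agent.U496.CM.drive M H r hr
    refine ⟨A, K, hA, fun a x N => ?_⟩
    have h := hK a x N
    unfold Pool.Agent.U496.CM.bad at h
    rw [Nat.count_eq_card_filter_range] at h
    exact h
  · obtain ⟨K, hK⟩ := part2
    refine ⟨1 / (2 * (|K| + 1)), by positivity, ?_⟩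
    obtain ⟨N₀, hN₀⟩ := exists_nat_ge (2 * (|K| + 1))
    refine ⟨N₀, fun N hN x => ?_⟩
    have h1 := hK lam id x N
    have h0 : wrong lam lam id N = 0 := by
      unfold wrong
      simp
    rw [h0, Nat.cast_zero, add_zero] at h1
    obtain ⟨E, hE⟩ : ∃ E, E = errors M lam x N := ⟨_, rfl⟩
    rw [← hE] at h1 ⊢
    have h2 : (0 : ℝ) < |K| + 1 := by positivity
    have h3 : (N₀ : ℝ) ≤ N := by exact_mod_cast hN
    have h4 : (0 : ℝ) ≤ (E : ℝ) + 1 := by positivity
    have h5 : (N : ℝ) ≤ (|K| + 1) * (E + 1) :=
      h1.trans (mul_le_mul_of_nonneg_right (by linarith [le_abs_self K]) h4)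
    rw [div_mul_eq_mul_div, one_mul, div_le_iff₀ (by positivity)]
    nlinarith

end Pool.Agent.Results.MP_52aa73_nt.CounterMachineErrors
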