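import Pool.Agent.U847.BY
import Pool.Agent.U847.GL

/-!
# Sign patterns of length four of the Liouville function along four arbitrary linear forms

For ANY four linear forms `a_i n + b_i`, no two proportional, and ANY signs `e_0, ..., e_3`, the signs
`(λ(a_0 n + b_0), ..., λ(a_3 n + b_3))` are equal to `(e_0, ..., e_3)` or to `(-e_0, ..., -e_3)` for at least a proportion
`1/64 - ε` of the `n`, at almost all scales and, with logarithmic weights, at all scales.

Proof: eight times the indicator of the event is `1` plus the six signed products of pairs plus the signed product of all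
four. The pairs have mean zero by the two point theorem at almost all scales (starting library `R318.MU`), and the average of
the product of all four is at most `1 - 1/8 + η` (`Pool.Agent.U847.GL`: entropy decrement and cubes of primes).
-/

set_option autoImplicit false

namespace Pool.Agent.Results.MP_52aa73_nt.FourForms

open Finset Filter Topology

/-- the Liouville function -/
noncomputable def lam (n : ℕ) : ℝ := (-1 : ℝ) ^ ArithmeticFunction.cardFactors n

/-- the signs of the Liouville function at the four forms are those of `e`, or all opposite to them -/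
def Occurs (a b : Fin 4 → ℕ) (e : Fin 4 → ℝ) (n : ℕ) : Prop :=
  (∀ i, lam (a i * n + b i) = e i) ∨ ∀ i, lam (a i * n + b i) = -e i

/-- `𝓔` has logarithmic density zero -/
def LogDensityZero (𝓔 : Set ℕ) : Prop :=
  open Classical in
  Tendsto (fun X : ℕ => (∑ N ∈ Icc 1 X, if N ∈ 𝓔 then (1 : ℝ) / N else 0) / Real.log X) atTop (𝓝 0)

lemma pt (x e : Fin 4 → ℝ) (hx : ∀ i, x i = 1 ∨ x i = -1) (he : ∀ i, e i = 1 ∨ e i = -1) [Decidable ((∀ i, x i = e i) ∨ ∀ i, x i = -e i)] :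
    8 * (if (∀ i, x i = e i) ∨ (∀ i, x i = -e i) then (1 : ℝ) else 0) =
      1 + (e 0 * e 1) * (x 0 * x 1) + (e 0 * e 2) * (x 0 * x 2) + (e 0 * e 3) * (x 0 * x 3) + (e 1 * e 2) * (x 1 * x 2) +
        (e 1 * e 3) * (x 1 * x 3) + (e 2 * e 3) * (x 2 * x 3) + (e 0 * e 1 * e 2 * e 3) * (x 0 * x 1 * x 2 * x 3) := by
  have q : ((∀ i, x i = e i) ∨ (∀ i, x i = -e i)) ↔
      ((x 0 = e 0 ∧ x 1 = e 1 ∧ x 2 = e 2 ∧ x 3 = e 3) ∨ (x 0 = -e 0 ∧ x 1 = -e 1 ∧ x 2 = -e 2 ∧ x 3 = -e 3)) := by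
    simp [Fin.forall_fin_succ]
  by_cases h : (x 0 = e 0 ∧ x 1 = e 1 ∧ x 2 = e 2 ∧ x 3 = e 3) ∨ (x 0 = -e 0 ∧ x 1 = -e 1 ∧ x 2 = -e 2 ∧ x 3 = -e 3)
  · rw [if_pos (q.2 h)]
    have e2 : ∀ i, e i * e i = 1 := fun i => by rcases he i with g | g <;> rw [g] <;> norm_num
    rcases h with ⟨h0, h1, h2, h3⟩ | ⟨h0, h1, h2, h3⟩ <;> rw [h0, h1, h2, h3]
    all_goals
      linear_combination (-(e 1 * e 1) - (e 2 * e 2) - (e 3 * e 3) - (e 1 * e 1) * (e 2 * e 2) * (e 3 * e 3)) * e2 0 +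
        (-1 - (e 2 * e 2) - (e 3 * e 3) - (e 2 * e 2) * (e 3 * e 3)) * e2 1 + (-2 - (e 3 * e 3) * 2) * e2 2 + (-4) * e2 3
  · rw [if_neg (fun g => h (q.1 g))]
    rcases hx 0 with h0 | h0 <;> rcases hx 1 with h1 | h1 <;> rcases hx 2 with h2 | h2 <;> rcases hx 3 with h3 | h3 <;>
      rcases he 0 with g0 | g0 <;> rcases he 1 with g1 | g1 <;> rcases he 2 with g2 | g2 <;> rcases he 3 with g3 | g3 <;>
      rw [h0, h1, h2, h3, g0, g1, g2, g3] at h ⊢ <;> first | (exfalso; apply h; norm_num; done) | norm_num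

lemma sgn (c S δ : ℝ) (hc : c = 1 ∨ c = -1) (h : |S| ≤ δ) : -δ ≤ c * S := by
  have h1 := abs_le.1 h
  rcases hc with g | g <;> rw [g] <;> linarith [h1.1, h1.2]

lemma pm (a b : ℝ) (ha : a = 1 ∨ a = -1) (hb : b = 1 ∨ b = -1) : a * b = 1 ∨ a * b = -1 := by
  rcases ha with h | h <;> rcases hb with g | g <;> rw [h, g] <;> norm_num

open Classical in
lemma key (s : Finset ℕ) (w : ℕ → ℝ) (x : Fin 4 → ℕ → ℝ) (hx : ∀ i n, x i n = 1 ∨ x i n = -1) (e : Fin 4 → ℝ)
    (he : ∀ i, e i = 1 ∨ e i = -1) (δ Q : ℝ) (h2 : ∀ i j, i ≠ j → |∑ n ∈ s, w n * (x i n * x j n)| ≤ δ)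
    (h4 : |∑ n ∈ s, w n * (x 0 n * x 1 n * x 2 n * x 3 n)| ≤ Q) :
    (∑ n ∈ s, w n) - 6 * δ - Q ≤ 8 * ∑ n ∈ s.filter (fun n => (∀ i, x i n = e i) ∨ ∀ i, x i n = -e i), w n := by
  have e1 : 8 * ∑ n ∈ s.filter (fun n => (∀ i, x i n = e i) ∨ ∀ i, x i n = -e i), w n =
      ∑ n ∈ s, w n + (e 0 * e 1) * ∑ n ∈ s, w n * (x 0 n * x 1 n) + (e 0 * e 2) * ∑ n ∈ s, w n * (x 0 n * x 2 n) +
        (e 0 * e 3) * ∑ n ∈ s, w n * (x 0 n * x 3 n) + (e 1 * e 2) * ∑ n ∈ s, w n * (x 1 n * x 2 n) +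
        (e 1 * e 3) * ∑ n ∈ s, w n * (x 1 n * x 3 n) + (e 2 * e 3) * ∑ n ∈ s, w n * (x 2 n * x 3 n) +
        (e 0 * e 1 * e 2 * e 3) * ∑ n ∈ s, w n * (x 0 n * x 1 n * x 2 n * x 3 n) := by
    rw [sum_filter]
    simp only [mul_sum, ← sum_add_distrib]
    apply sum_congr rfl
    intro n _
    have := pt (fun i => x i n) e (fun i => hx i n) he
    by_cases g : (∀ i, x i n = e i) ∨ ∀ i, x i n = -e i
    · rw [if_pos g] at this ⊢
      linear_combination (w n) * this
    · rw [if_neg g] at this ⊢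
      linear_combination (w n) * this
  rw [e1]
  have k1 := sgn _ _ _ (pm _ _ (he 0) (he 1)) (h2 0 1 (by decide))
  have k2 := sgn _ _ _ (pm _ _ (he 0) (he 2)) (h2 0 2 (by decide))
  have k3 := sgn _ _ _ (pm _ _ (he 0) (he 3)) (h2 0 3 (by decide))
  have k4 := sgn _ _ _ (pm _ _ (he 1) (he 2)) (h2 1 2 (by decide))
  have k5 := sgn _ _ _ (pm _ _ (he 1) (he 3)) (h2 1 3 (by decide))
  have k6 := sgn _ _ _ (pm _ _ (he 2) (he 3)) (h2 2 3 (by decide))
  have k7 := sgn _ _ _ (pm _ _ (pm _ _ (pm _ _ (he 0) (he 1)) (he 2)) (he 3)) h4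
  linarith

open Classical in
/-- There is a set `𝓔` of scales of logarithmic density zero such that for all four linear forms `a i * n + b i` with
`a i ≥ 1`, `b i ≥ 0` and `a i * b j ≠ a j * b i` for `i ≠ j`, all signs `e i` and all `ε > 0` there is an `N₀` such that for all
`N ≥ N₀`: if `N ∉ 𝓔` then the number of the `n ≤ N` for which the signs are those of `e`, or all opposite to them, is at least
`(1/64 - ε) N`; and for ALL `N ≥ N₀` the sum of `1 / n` over these `n` is at least `(1/64 - ε) log N`. -/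
theorem result : ∃ 𝓔 : Set ℕ, LogDensityZero 𝓔 ∧
    ∀ a b : Fin 4 → ℕ, (∀ i, 1 ≤ a i) → (∀ i j, i ≠ j → a i * b j ≠ a j * b i) →
      ∀ e : Fin 4 → ℝ, (∀ i, e i = 1 ∨ e i = -1) → ∀ ε : ℝ, 0 < ε → ∃ N₀ : ℕ, ∀ N : ℕ, N₀ ≤ N →
        (N ∉ 𝓔 → (1 / 64 - ε) * N ≤ ((Icc 1 N).filter (Occurs a b e)).card) ∧
        (1 / 64 - ε) * Real.log N ≤ ∑ n ∈ (Icc 1 N).filter (Occurs a b e), (1 : ℝ) / n := by
  obtain ⟨E, hE, h1⟩ := Pool.Agent.U847.GL.lam
  obtain ⟨E', hE', h2⟩ := Pool.Agent.U847.BZ.gram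
  have hE'' : Pool.Agent.Y958.U.LZ E' := by
    unfold Pool.Agent.Y958.U.LZ
    refine (tendsto_congr fun X => ?_).mp hE'
    congr!
  refine ⟨E ∪ E', ?_, ?_⟩
  · have h3 := Pool.Agent.Y958.U.LZ_union hE hE''
    unfold Pool.Agent.Y958.U.LZ at h3
    unfold LogDensityZero
    refine (tendsto_congr fun X => ?_).mp h3
    congr!
  · intro a b ha hab e he ε hε
    obtain ⟨⟨N₁, h3⟩, N₂, h4⟩ := h1 2 a b ha hab ε hε
    obtain ⟨⟨N₃, h5⟩, N₄, h6⟩ := h2 4 a b ha hab (ε / 2) (by positivity)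
    have hlam : ∀ n, lam n = 1 ∨ lam n = -1 := fun n => neg_one_pow_eq_or ℝ _
    have hp : ∀ n, Pool.Agent.Y958.U.FF a b n =
        lam (a 0 * n + b 0) * lam (a 1 * n + b 1) * lam (a 2 * n + b 2) * lam (a 3 * n + b 3) := by
      intro n
      unfold Pool.Agent.Y958.U.FF lam
      rw [Fin.prod_univ_four]
    refine ⟨N₁ + N₂ + N₃ + N₄ + 1, fun N hN => ⟨fun hNE => ?_, ?_⟩⟩
    · have g1 := h3 N (by omega) (fun h => hNE (Or.inl h))
      have g2 := h5 N (by omega) (fun h => hNE (Or.inr h))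
      have g3 := key (Icc 1 N) (fun _ => 1) (fun i n => lam (a i * n + b i)) (fun i n => hlam _) e he (ε / 2 * N)
        ((1 - 1 / 2 ^ (2 + 1) + ε) * N) (fun i j hij => by simp only [one_mul]; exact g2 i j hij)
        (by simp only [one_mul]; simpa only [hp] using g1)
      have g4 : ∑ n ∈ (Icc 1 N).filter (Occurs a b e), (1 : ℝ) = ((Icc 1 N).filter (Occurs a b e)).card := by simp
      have g5 : ∑ n ∈ Icc 1 N, (1 : ℝ) = N := by simp
      have g6 : (0 : ℝ) ≤ N := Nat.cast_nonneg N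
      have g7 : ((Icc 1 N).filter (fun n => (∀ i, lam (a i * n + b i) = e i) ∨ ∀ i, lam (a i * n + b i) = -e i)) =
          (Icc 1 N).filter (Occurs a b e) := by
        ext n
        rw [mem_filter, mem_filter]
        exact Iff.rfl
      simp only [g7, g4, g5] at g3
      norm_num at g3
      nlinarith
    · have g1 := h4 N (by omega)
      have g2 := h6 N (by omega)
      have hN1 : (1 : ℝ) ≤ N := by exact_mod_cast (by omega : 1 ≤ N)
      have hlog : 0 ≤ Real.log N := Real.log_nonneg hN1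
      have hH : Real.log N ≤ ∑ n ∈ Icc 1 N, (1 : ℝ) / n := by
        have hh := log_add_one_le_harmonic N
        rw [harmonic_eq_sum_Icc] at hh
        push_cast at hh
        have h6 : Real.log N ≤ Real.log (N + 1) := Real.log_le_log (by linarith) (by linarith)
        simpa [one_div] using h6.trans hh
      have ew : ∀ f : ℕ → ℝ, ∑ n ∈ Icc 1 N, 1 / (n : ℝ) * f n = ∑ n ∈ Icc 1 N, f n / n := by
        intro f
        apply sum_congr rfl
        intro n _
        ring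
      have g3 := key (Icc 1 N) (fun n => 1 / (n : ℝ)) (fun i n => lam (a i * n + b i)) (fun i n => hlam _) e he
        (ε / 2 * Real.log N) ((1 - 1 / 2 ^ (2 + 1) + ε) * ∑ n ∈ Icc 1 N, (1 : ℝ) / n)
        (fun i j hij => by
          rw [ew (fun n => lam (a i * n + b i) * lam (a j * n + b j))]
          exact g2 i j hij)
        (by
          rw [ew (fun n => lam (a 0 * n + b 0) * lam (a 1 * n + b 1) * lam (a 2 * n + b 2) * lam (a 3 * n + b 3))]
          simpa only [hp] using g1)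
      have g7 : ((Icc 1 N).filter (fun n => (∀ i, lam (a i * n + b i) = e i) ∨ ∀ i, lam (a i * n + b i) = -e i)) =
          (Icc 1 N).filter (Occurs a b e) := by
        ext n
        rw [mem_filter, mem_filter]
        exact Iff.rfl
      simp only [g7] at g3
      have g8 : 0 ≤ ∑ n ∈ (Icc 1 N).filter (Occurs a b e), (1 : ℝ) / n := sum_nonneg fun n _ => by positivity
      rcases le_or_gt ε (1 / 8) with hs | hs
      · norm_num at g3
        norm_num at hH
        have g9 : (1 / 8 - ε) * Real.log N ≤ (1 / 8 - ε) * ∑ n ∈ Icc 1 N, ((n : ℝ))⁻¹ :=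
          mul_le_mul_of_nonneg_left hH (by linarith)
        norm_num
        have g10 : 0 ≤ ε * Real.log N := mul_nonneg hε.le hlog
        nlinarith
      · refine le_trans ?_ g8
        exact mul_nonpos_of_nonpos_of_nonneg (by linarith) hlog

end Pool.Agent.Results.MP_52aa73_nt.FourForms
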